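import Pool.Agent.Helper74.WB.Defs

/-!
# Project WB (MP_26f0da_lc): module statements

THEOREM.  Let `Γ` be a graph on `Fin n` with an induced path on four vertices (for example the path
itself: RNA letters with the pairs AU, GC, GU).  Then `{w | NC Γ.Adj w}` is a hardest context-free
language: context-free, every context-free language is reduced to it by `w ↦ u h(w)`, and every
context-free language is in `L` iff it is in `L`.

Plan.  Part 1: the languages `OP` (free group words with optional letters), and their reduction to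
the path.  Part 2: the simulation of the machines of project DR by `OP` words, with an all or nothing
gadget.  Part 3: assembly.

The lemmas of `Defs.lean` may be used (`iv_iv`, `iv_ne`, `iv_eq_iff`, `ap_cancel`, `ap_cancel'`,
`ap_push`, `ap_push'`, `red_*`, `ap_iv_ap`, `ap_ap_iv`, `rd_*`, `inv_*`, `gr_*`, `op_append`,
`op_optional`).  For each `StX` the module proves `theorem hX : StX` from the listed statements.
`Red σ`: the stack is reduced.  Stacks: top first.  `ap x σ`: the letter `x` arrives.  `rd l σ`: the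
word `l` is read.  `Gr w σ τ`: the word `w` with optional letters can be read from `σ` to `τ`.
-/

set_option autoImplicit false

namespace Pool.Agent.Helper74.WB

open Pool.Agent.Helper74.NM (NC)

/-! ## Part 1: words with optional letters -/

/-- GRA (about 30 lines).  `OP w` can be read from every reduced stack.

Proof.  Induction on `OP w`.  `skip`: the letter is skipped.  `wrap x o o' u v`: `x` arrives (`ap x σ` is
reduced, `red_ap`), `Gr u (ap x σ) (ap x σ)`, `iv x` arrives: `ap_iv_ap`, `Gr v σ σ`; `gr_append`.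
Hypotheses: none. -/
def StGRA : Prop := ∀ (Λ : Type) (w : List ((Λ × Bool) × Bool)) (σ : List (Λ × Bool)),
  OP w → Red σ → Gr w σ σ

/-- GRE (about 70 lines).  `OP` and stacks.

Proof.  (→) hGRA, `red_nil`.  (←) Let `Sg [] w ↔ OP w` and
`Sg (x :: σ) w ↔ ∃ d o w₁, w = d ++ (iv x, o) :: w₁ ∧ OP d ∧ Sg σ w₁`.  Claim `Gr w σ [] → Sg σ w`, by
induction on `w` for all `σ`.  `w = []`: `σ = []`.  `(a, o) :: w`, skipped: `OP.skip` (in the first part `d`
if `σ ≠ []`).  Arrival with `σ = iv a :: σ'` (`ap_cancel`): `d = []`, `iv_iv`.  Push: `Sg (a :: σ) w`: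
`w = d ++ (iv a, o') :: w₁`, `OP d`, `Sg σ w₁`: if `σ = []`: `OP.wrap`; if `σ = x :: σ'`:
`w₁ = d₁ ++ (iv x, o'') :: w₂`, and `(a, o) :: (d ++ (iv a, o') :: d₁)` is `OP` by `OP.wrap`.
Hypotheses: hGRA. -/
def StGRE : Prop := ∀ (Λ : Type) (w : List ((Λ × Bool) × Bool)), OP w ↔ Gr w [] []

/-- INS (about 20 lines).  Insertion.

Proof.  hGRE and `gr_append`: `Gr u [] ρ`, `Gr v ρ []`; `ρ` is reduced (`red_gr`), so `Gr m ρ ρ` by hGRA.
Hypotheses: hGRA hGRE. -/
def StINS : Prop := ∀ (Λ : Type) (u m v : List ((Λ × Bool) × Bool)),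
  OP (u ++ v) → OP m → OP (u ++ (m ++ v))

/-- DEM (about 80 lines).  A demand may be deleted.

Proof.  Induction on `OP w` for all decompositions `w = u ++ ((i, false), false) :: v` with `QW w`.
`skip x w`: `QW` gives `x.2 = true`, so the demand is not the first letter; `u = (x, true) :: u'`, induction,
`OP.skip`.  `wrap x o o' p q`: if `u = []`: `x = (i, false)`, the rest is `p ++ (iv x, o') :: q` and `o' = true` by
`QW`: `op_append`, `OP.skip`.  If `u = (x, o) :: u'`: the demand is in `p` (induction, `OP.wrap`), or it is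
`(iv x, o')` (then `x = (i, true)`, `o = true`: `OP.skip`, `op_append`), or in `q` (induction, `OP.wrap`).
Hypotheses: none. -/
def StDEM : Prop := ∀ (Λ : Type) (i : Λ) (u v : List ((Λ × Bool) × Bool)),
  QW (u ++ ((i, false), false) :: v) → OP (u ++ ((i, false), false) :: v) → OP (u ++ v)

/-- CAN (about 40 lines).  A supply and a demand with the same label which are adjacent cancel.

Proof.  hGRE, `gr_append`: `Gr u [] ρ` (`ρ` is reduced), then `gr_opt`, `gr_mand`.  If the supply is taken:
`ap_iv_ap` / `ap_ap_iv` give `Gr v ρ []`.  If it is skipped: `OP (u ++ demand :: v)` by hGRE, and hDEM.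
Hypotheses: hGRE hDEM. -/
def StCAN : Prop := ∀ (Λ : Type) (i : Λ) (u v : List ((Λ × Bool) × Bool)), QW u → QW v →
  (OP (u ++ ((i, true), true) :: ((i, false), false) :: v) → OP (u ++ v)) ∧
  (OP (u ++ ((i, false), false) :: ((i, true), true) :: v) → OP (u ++ v))

/-- INN (about 60 lines).  An innermost pair.

Proof.  Induction on `OP w`.  `nil`: left.  `skip x w`: `x.2 = true` by `QW`; left: left; right: put the letter in
front of `α`, `OP.skip`.  `wrap x o o' u v`: induction for `u`: left: right with `α = []`, `S = u`, `β = v`.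
Right: `α' = (x, o) :: α`, `β' = β ++ (iv x, o') :: v`, `OP.wrap`.  Hypotheses: none. -/
def StINN : Prop := ∀ (Λ : Type) (w : List ((Λ × Bool) × Bool)), QW w → OP w →
  (∀ a ∈ w, a.1.2 = true) ∨
  ∃ (α S β : List ((Λ × Bool) × Bool)) (x : Λ × Bool) (o o' : Bool),
    w = α ++ (x, o) :: (S ++ (iv x, o') :: β) ∧ (∀ a ∈ S, a.1.2 = true) ∧ OP (α ++ β)

/-- ENA (about 60 lines).  The coding, first direction.

Proof.  Induction on `OP w`.  `skip`: `enc (x, true)` is one supply: `OP.skip`.  `wrap x o o' u v`: let `U`, `V` be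
the images of `u`, `v`.  `o = o' = false`: the word is supply `x`, demand `iv x`, `U`, supply `iv x`,
demand `x` (`iv_iv`), `V`: `OP.wrap` twice.  `o = false`, `o' = true`: supply `x`, demand `iv x`, `U`, supply
`iv x`, `V`: skip the first supply, `OP.wrap`.  `o = true`, `o' = false`: supply `x`, `U`, supply `iv x`,
demand `x`, `V`: `OP.wrap` around `U` and the supply `iv x` (`op_append`, `OP.skip`).  Both `true`: skip both
supplies.  Hypotheses: none. -/
def StENA : Prop := ∀ (Λ : Type) (w : List ((Λ × Bool) × Bool)), OP w → OP (w.flatMap enc)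

/-- ENS (about 150 lines).  The coding: an innermost pair in the coded word.

Proof.  `QW (w.flatMap enc)`.  hINN.  Left: a letter of `w` which is not optional gives a demand.  Right:
`w.flatMap enc = α ++ (x, o) :: (S ++ (iv x, o') :: β)`.  The lemma `NM.flatMap_split` (file
`Pool/Agent/Helper74/NM/Defs.lean`; import it) gives `w = w₁ ++ c :: w₂`, `enc c = p ++ (x, o) :: r`,
`α = w₁.flatMap enc ++ p`, `S ++ (iv x, o') :: β = r ++ w₂.flatMap enc`.
(I) `x.2 = false`: then `c.2 = false`, `(x, o) = ((iv c.1, false), false)`, `p = [((c.1, true), true)]`, `r = []`.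
Split again: `w₂ = w₃ ++ d :: w₄`, `enc d = q ++ (iv x, o') :: r'`, `S = w₃.flatMap enc ++ q`,
`β = r' ++ w₄.flatMap enc`.  `iv x = (iv c.1, true)` is a supply, so `q = []`, `d.1 = iv c.1`; the letters of `w₃`
are optional because `S` has no demand.  `d.2 = true`: `r' = []`, and `α ++ β` is the code of
`w₁ ++ (c.1, true) :: w₄`.  `d.2 = false`: `r' = [((c.1, false), false)]` (`iv_iv`), and
`α ++ β = w₁.flatMap enc ++ supply c.1, demand c.1, w₄.flatMap enc`: hCAN.
(II) `x.2 = true`: `(x, o) = ((c.1, true), true)`, `p = []`.  If `c.2 = false`: `r = [((iv c.1, false), false)]` is the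
beginning of `S ++ (iv x, o') :: β`; `S` has no demand, so `S = []` and `iv x = (iv c.1, false)`, but
`iv x = (c.1, false)`: contradiction (`iv_ne`).  So `c.2 = true`, `r = []`; split again: `d` has the demand
`(c.1, false)`: `d.2 = false`, `iv d.1 = c.1`, `q = [((d.1, true), true)]`, `r' = []`; `w₃` optional, and
`α ++ β` is the code of `w₁ ++ w₄`.  Hypotheses: hINN hCAN. -/
def StENS : Prop := ∀ (Λ : Type) (w : List ((Λ × Bool) × Bool)), OP (w.flatMap enc) →
  (∀ a ∈ w, a.2 = true) ∨
  ∃ (w₁ w₃ w₄ : List ((Λ × Bool) × Bool)) (x : Λ × Bool) (o o' : Bool),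
    w = w₁ ++ (x, o) :: (w₃ ++ (iv x, o') :: w₄) ∧ (∀ a ∈ w₃, a.2 = true) ∧
    ((o = false ∧ o' = true ∧ OP ((w₁ ++ (x, true) :: w₄).flatMap enc)) ∨
      ((o = false ∨ o' = false) ∧ OP ((w₁ ++ w₄).flatMap enc)))

/-- ENC (about 70 lines).  The coding.

Proof.  (→) hENA.  (←) Strong induction on the length of `w`, hENS.  All letters optional: `op_optional`.
First alternative: `OP (w₁ ++ (x, true) :: w₄)` by induction; hGRE: `Gr w₁ [] ρ` (`ρ` is reduced), and the letter
is taken: `Gr w₄ (ap x ρ) []`: in the target `x` arrives, `w₃` and `(iv x, true)` are skipped (`gr_skips`); or it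
is skipped: `Gr w₄ ρ []`: in the target `x` arrives, `w₃` is skipped, `iv x` is taken (`ap_iv_ap`).
Second alternative: `OP (w₁ ++ w₄)` by induction; hINS with `m = (x, o) :: (w₃ ++ [(iv x, o')])`, `OP m` by
`OP.wrap`, `op_optional`.  Hypotheses: hGRE hINS hENA hENS. -/
def StENC : Prop := ∀ (Λ : Type) (w : List ((Λ × Bool) × Bool)), OP w ↔ OP (w.flatMap enc)

/-- REL (about 60 lines).  Other labels.

Proof.  (→) induction on `OP w`.  (←) induction on `OP w'` for all `w` with `w' = w.map (rl e)`:
`List.map_eq_cons_iff`, `List.map_eq_append_iff`; `e` is injective, so the labels of the pair agree.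
Hypotheses: none. -/
def StREL : Prop := ∀ (Λ Λ' : Type) (e : Λ → Λ'), Function.Injective e →
  ∀ w : List ((Λ × Bool) × Bool), OP w ↔ OP (w.map (rl e))

/-- PA1 (about 90 lines).  From quasipositive words to the path.

Proof.  Let `R = (SimpleGraph.pathGraph 4).Adj` (decidable on `Fin 4`, `by decide` or `simp` with
`SimpleGraph.pathGraph_adj`); `R` is symmetric and `0`, `1`; `1`, `2`; `2`, `3` are the edges.  `NC R` is closed under
`++` (induction).  Nesting: `NC R m` gives `NC R (0^i ++ m ++ 1^i)` and `NC R (1^i ++ m ++ 0^i)` (induction on `i`).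
Induction on `OP w` with `QW w`.  `skip x w`: `x = (i, true)`: `0^i 1 2 1^i`.  `wrap x o o' u v`: `x = (i, true)`:
the word is `0^i 1 2 1^i U 0^i 3 0 1^i V`: `1^i U 0^i`; `2 .. 3`; `1 .. 0`; `0^i .. 1^i`; `V`.
`x = (i, false)`: `0^i 3 0 1^i U 0^i 1 2 1^i V`: `1^i U 0^i`; `0 .. 1`; `3 .. 2`; `0^i .. 1^i`; `V`.
Hypotheses: none. -/
def StPA1 : Prop := ∀ w : List ((ℕ × Bool) × Bool), QW w → OP w →
  NC (SimpleGraph.pathGraph 4).Adj (w.flatMap pw)

/-- TRA (about 80 lines).  Words over the path, read with heights.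

Proof.  `tr η (u ++ v) = tr η u ++ tr (η + ht u) v`, `ht (u ++ v) = ht u + ht v` (induction).  Induction on
`NC R w`: `wrap x y u v` with the six pairs: `0 u 1`, `1 u 0`: `tr η` is `tr (η ± 1) u ++ tr η v`.  `2 u 3`: supply
`η + 1`, `tr (η + 1) u`, demand `η + 1`.  `3 u 2`: demand `η`, `tr (η - 1) u`, supply `η`.  `1 u 2`:
`tr (η - 1) u`, supply.  `2 u 1`: supply, `tr (η + 1) u`.  Always `ht (x :: (u ++ y :: v)) = 0`.
Hypotheses: none. -/
def StTRA : Prop := ∀ w : List (Fin 4), NC (SimpleGraph.pathGraph 4).Adj w →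
  ht w = 0 ∧ ∀ η : ℤ, OP (tr η w)

/-- TRB (about 70 lines).  The coded word, read with heights.

Proof.  Induction on `w`; `tr` and `ht` of an append as in TRA; `ht (pw a) = 0` and
`tr 0 (pw a) = [rl (fun n : ℕ => (n : ℤ)) a]` for `a = ((i, s), s)`: the block `0^i` goes up to the height `i` and
gives no letter; `1 2`: down to `i - 1`, supply with the label `i`; `3 0`: demand with the label `i`; `1^i` goes down
and gives no letter.  Hypotheses: none. -/
def StTRB : Prop := ∀ w : List ((ℕ × Bool) × Bool), QW w →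
  tr 0 (w.flatMap pw) = w.map (rl fun n : ℕ => (n : ℤ))

/-- TOP (about 60 lines).  From `OP` to the path.

Proof.  Let `e : Λ × Bool → ℕ` be injective (`exists_injective_nat` or `Countable`), and
`k a = ((enc a).map (rl e)).flatMap pw`.  `OP w ↔ OP (w.flatMap enc)` (hENC) `↔ OP ((w.flatMap enc).map (rl e))`
(hREL) `↔ NC` of the image under `pw`: (→) hPA1; (←) hTRA with `η = 0`, hTRB, hREL for the
injective map `ℕ → ℤ`.  The coded words satisfy `QW`.  `k a ≠ []` because `enc a ≠ []` and `pw b ≠ []`.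
Hypotheses: hENC hREL hPA1 hTRA hTRB. -/
def StTOP : Prop := ∀ (Λ : Type) [Countable Λ], ∃ k : ((Λ × Bool) × Bool) → List (Fin 4),
  (∀ a, k a ≠ []) ∧ ∀ w : List ((Λ × Bool) × Bool),
    OP w ↔ NC (SimpleGraph.pathGraph 4).Adj (w.flatMap k)

/-- IND (about 50 lines).  Induced subgraphs.

Proof.  (→) induction on `NC`, `e.map_rel_iff` / `e.map_adj_iff`.  (←) induction on `NC` for all `w` with
`w' = w.map e` (`List.map_eq_cons_iff`, `List.map_eq_append_iff`).  Hypotheses: none. -/
def StIND : Prop := ∀ (n : ℕ) (Γ : SimpleGraph (Fin n)) (e : SimpleGraph.pathGraph 4 ↪g Γ)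
  (w : List (Fin 4)), NC (SimpleGraph.pathGraph 4).Adj w ↔ NC Γ.Adj (w.map e)

/-! ## Part 2: the simulation -/

/-- BAS (about 50 lines).  The letter `π` and the stack below it are not touched if `iv π` does not occur.

Proof.  Induction on `w` for all `δ`.  Skipped: induction.  Arrival of `x ≠ iv π`: if `δ = []`, the top is `π` and
`π ≠ iv x`, so `x` is pushed; if `δ = y :: δ'`, `x` is pushed or cancels `y`.  Second part: induction on `l`, or
from the first part with `gr_mands`.  Hypotheses: none. -/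
def StBAS : Prop := ∀ (Λ : Type) (π : Λ × Bool) (δ σ : List (Λ × Bool)),
  (∀ (w : List ((Λ × Bool) × Bool)) (τ : List (Λ × Bool)), (∀ a ∈ w, a.1 ≠ iv π) →
    Gr w (δ ++ π :: σ) τ → ∃ δ', τ = δ' ++ π :: σ ∧ ∀ x ∈ δ', x ∈ δ ∨ ∃ a ∈ w, a.1 = x) ∧
  (∀ l : List (Λ × Bool), (∀ a ∈ l, a ≠ iv π) →
    ∃ δ', rd l (δ ++ π :: σ) = δ' ++ π :: σ ∧ ∀ x ∈ δ', x ∈ δ ∨ x ∈ l)

/-- PSH (about 90 lines).  Pushing words.

Proof.  (1) Induction on `l` for all `σ` (`ap_push'`).  (2) `inv l` reverses the order and inverts: adjacent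
letters `x`, `y` of `l` become `iv y`, `iv x` (prove it with `Red` of an append, or by induction with the last
letter).  (3) `gt g` is `(b false, -) (z X, -) (z γ_k, +) .. (z γ_1, +) (b true, +) (t g, -)`; the letters `z X` and
`z γ_k` do not cancel because `γ_k` is the last element of `g.2`, `rk X = true` and `rk γ_k = false` by `Rc`.
(4) By unfolding.  Hypotheses: none. -/
def StPSH : Prop :=
  (∀ (Λ : Type) (l σ : List (Λ × Bool)), Red l →
    (∀ x ∈ l.head?, ∀ y ∈ σ.head?, y ≠ iv x) → rd l σ = l.reverse ++ σ) ∧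
  (∀ (Λ : Type) (l : List (Λ × Bool)), Red l → Red (inv l)) ∧
  (∀ (W : Type) (rk : W → Bool) (g : W × List W), Rc rk g → Red (gt g) ∧ Red (gG g).tail) ∧
  (∀ (W : Type) (g : W × List W),
    (gt g).reverse = (.t g, false) :: (.b true, true) :: (cfg g.2 ++ [(.z g.1, false), (.b false, false)]) ∧
    (inv (gt g)).head? = some (.t g, true) ∧ (inv (gt g)).getLast? = some (.b false, true) ∧
    (gG g).tail.reverse = (.b true, true) :: (cfg g.2 ++ [(.z g.1, false)]))

/-- GWA (about 110 lines).  The first part of the gadget.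

Proof.  `(y g, +)` is pushed (`Fr`).  The optional letters of `gG g` are public: hBAS with `π = (y g, true)`,
`δ = []`: the stack is `δ₀ ++ (y g, true) :: σ`, `δ₀` public.  The optional letter `(t g, -)`: skipped, or pushed
(the top is public or `(y g, true)`).  So the stack is `δ ++ (y g, true) :: σ` with `δ = δ₀` or
`δ = (t g, false) :: δ₀`.  `(y g, -)`: if `δ = []` it cancels and the stack is `σ`; otherwise it is pushed.
Optional `(y g, +)`: skipped: `τ = σ` or `τ = (y g, false) :: ..`; taken: from `σ` it is pushed (`Fr`), so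
`δ = []`; from `(y g, false) :: δ ++ ..` it cancels.  Hypotheses: hBAS. -/
def StGWA : Prop := ∀ (W : Type) (g : W × List W) (σ τ : List (Lb W × Bool)),
  Fr g σ → Gr (w1 g) σ τ → Mid g σ τ

/-- GWB (about 140 lines).  The second part of the gadget.

Proof.  `gr_mands`, `gr_opt`.  Optional `(y g, -)` skipped: `τ = rd (gt g) (rd (inv (gt g)) ξ) = ξ` (`rd_inv_rd`).
Taken: `τ = rd (gt g) (ap (y g, false) (rd (inv (gt g)) ξ))`.  If `ξ = σ` (`Fr`) or `ξ = (y g, false) :: ..`: the top
is not `(t g, false)`, so `rd (inv (gt g)) ξ = (inv (gt g)).reverse ++ ξ` (hPSH (1), (2), (3)), with the top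
`(b false, true)`; `(y g, false)` is pushed, and then all letters of `gt g` are pushed (hPSH (1)): third
alternative (hPSH (4)).  If `ξ = δ ++ (y g, true) :: σ`: hBAS (second part, `π = (y g, true)`; the letters of
`inv (gt g)` are public or `(t g, true)`): `rd (inv (gt g)) ξ = δ' ++ (y g, true) :: σ`, the letters of `δ'` are public or have
the label `t g`.  `δ' = []`: `(y g, false)` cancels, `τ = rd (gt g) σ`.  `δ' ≠ []`: `(y g, false)` is pushed, and then
all letters of `gt g`: third alternative.  Hypotheses: hBAS hPSH. -/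
def StGWB : Prop := ∀ (W : Type) (rk : W → Bool) (g : W × List W) (σ ξ τ : List (Lb W × Bool)),
  Rc rk g → Red σ → Red ξ → Fr g σ → Mid g σ ξ → Gr (w2 g) ξ τ →
    τ = ξ ∨ τ = rd (gt g) σ ∨
      ∃ τ', τ = (.t g, false) :: (.b true, true) :: (cfg g.2 ++ (.z g.1, false) :: τ')

/-- GAD (about 90 lines).  The gadget.

Proof.  `gr_append`: `ξ` after `w1 g` (hGWA, `red_gr`), `τ₁` after `w2 g` (hGWB), then the optional letter
`(t g, +)`.  `τ₁ = ξ`: `ξ = σ`: skipped: first alternative; taken: pushed (`Fr`): fourth.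
`ξ = (y g, false) :: ..`: skipped or pushed: fourth.  `ξ = δ ++ (y g, true) :: σ`: `δ` public: skipped: fifth;
taken: the top is public or `(y g, true)`, it is pushed: fourth.  `δ = (t g, false) :: δ₀`: skipped: fourth;
taken: it cancels: fifth.  `τ₁ = rd (gt g) σ = ap (t g, false) (rd (gG g) σ)`: skipped: third; taken: second
(`ap_iv_ap`).  Third alternative of hGWB: skipped: fourth; taken: it cancels: sixth.
Hypotheses: hGWA hGWB. -/
def StGAD : Prop := ∀ (W : Type) (rk : W → Bool) (g : W × List W) (σ τ : List (Lb W × Bool)),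
  Rc rk g → Red σ → Fr g σ → Gr (wg g) σ τ → Out g σ τ

/-- GCO (about 60 lines).  Completeness of the gadget.

Proof.  (1) `(y g, +)` arrives, the optional letters are skipped (`gr_skips`), `(y g, -)` arrives (`ap_iv_ap`),
`(y g, +)` is skipped: `σ`; `rd (gt g) (rd (inv (gt g)) σ) = σ` with `(y g, -)` skipped; `(t g, +)` is skipped.
(2) Let `σ₁ = ap (y g, true) σ`.  All optional letters are taken (`gr_takes`): `rd (gt g) σ₁`; `(y g, -)` arrives
and `(y g, +)` is taken (`ap_ap_iv`): `rd (gt g) σ₁`; `inv (gt g)`: `σ₁` (`rd_rd_inv`); `(y g, -)` is taken: `σ`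
(`ap_iv_ap`); `gt g`: `ap (t g, false) (rd (gG g) σ)`; `(t g, +)` is taken: `rd (gG g) σ`.  Hypotheses: none. -/
def StGCO : Prop := ∀ (W : Type) (g : W × List W) (σ : List (Lb W × Bool)), Red σ →
  Gr (wg g) σ σ ∧ Gr (wg g) σ (rd (gG g) σ)

/-- RDP (about 60 lines).  The effect of a rule without its first letter.

Proof.  `(gG g).tail` is `(z X, -)`, then `z y` for `y` in `g.2.reverse`, then `(b true, +)`.  (1) hPSH (1), (3), (4).
(2) `(z X, -)` cancels; the letters `z y` (positive) and `b true` are pushed on positive letters.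
(3) `(z X, -)` cancels, `g.2 = []`, `(b true, +)` is pushed.  Hypotheses: hPSH. -/
def StRDP : Prop := ∀ (W : Type) (rk : W → Bool) (g : W × List W) (σ : List (Lb W × Bool)),
  Rc rk g →
  ((∀ x ∈ σ.head?, x ≠ (.z g.1, true)) →
    rd (gG g).tail σ = (.b true, true) :: (cfg g.2 ++ (.z g.1, false) :: σ)) ∧
  ((∀ x ∈ σ.head?, x.2 = true) →
    rd (gG g).tail ((.z g.1, true) :: σ) = (.b true, true) :: (cfg g.2 ++ σ)) ∧
  (g.2 = [] → (∀ x ∈ σ.head?, x ≠ (.b true, false)) →
    rd (gG g).tail ((.z g.1, true) :: σ) = (.b true, true) :: σ)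

/-- RDG (about 130 lines).  The effect of a rule.

Proof.  `rd (gG g) σ = rd (gG g).tail (ap (b false, false) σ)`.  (1) The flag is cancelled; `s = g.1 :: s'`:
hRDP (2) (the letters of `cfg s'` are positive), `cfg` of an append; otherwise (`s = []` or another first symbol)
hRDP (1): `C1i` with `Rc`.  (2) `C1o σ`: `σ = (b true, false) :: τ`: hRDP (1).  `σ = cfg s ++ (z X', false) :: τ`:
`s = g.1 :: s'` with `s' ≠ []`: hRDP (2), the last element of `g.2 ++ s'` is the last element of `s`;
`s = [g.1]`: `rk g.1 = false`, so `g.2 = []` by `Rc` (otherwise `rk g.1 = true`): hRDP (3), the result is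
`(b true, true) :: (z X', false) :: τ`; `s = []` or another first symbol: hRDP (1).
(3) `(b false, false)` is pushed on `x`, then hRDP (1).  (4) hBAS (second part) with `π = (y h, true)`: the letters of
`gG g` are public.  Hypotheses: hBAS hRDP. -/
def StRDG : Prop := ∀ (W : Type) (rk : W → Bool) (g : W × List W), Rc rk g →
  (∀ s : List W, (∃ s', s = g.1 :: s' ∧
      rd (gG g) ((.b false, true) :: cfg s) = (.b true, true) :: cfg (g.2 ++ s')) ∨
    C1i rk (rd (gG g) ((.b false, true) :: cfg s))) ∧
  (∀ σ, C1o rk σ → C1i rk (rd (gG g) ((.b false, true) :: σ))) ∧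
  (∀ (x : Lb W × Bool) (σ : List (Lb W × Bool)), x ≠ (.b false, true) →
    C1i rk (rd (gG g) (x :: σ))) ∧
  (∀ σ, C2 σ → C2 (rd (gG g) σ))

/-- STP (about 140 lines).  One gadget.

Proof.  All stacks in question satisfy `Fr g`: the top is `(b i, true)`, public, `(y h, true)`, or of the
third class for a rule which is not in `g :: m`, so not `g`.  hGAD gives six alternatives.
Part 1 (`σ = (b i, true) :: cfg s`; it is reduced because all letters are positive): first: `τ = σ`.
Second: `i = false`: hRDG (1); `i = true`: hRDG (3): `C1i`.  Third: `τ = ap (t g, false) (rd (gG g) σ)`, and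
`rd (gG g) σ` has the top `(b j, true)` (by the second alternative), so `(t g, false)` is pushed: `C3 m` with
`g ∉ m`.  Fourth: `C3 m`.  Fifth: `C2`.  Sixth: `C1i` with `Rc`.
Part 2: first: `BI (g :: m)` implies `BI m`.  Second: `C1i`: hRDG (2) (`i = false`) or (3) (`i = true`); `C2`: hRDG (4);
`C3`: hRDG (3).  Third: `rd (gG g) σ` is `C1i` or `C2` (second alternative), its top is `(b j, true)`, public or
`(y h, true)`, so `(t g, false)` is pushed: `C3 m`.  The others as in part 1.  Hypotheses: hGAD hRDG. -/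
def StSTP : Prop := ∀ (W : Type) (rk : W → Bool) (g : W × List W) (m : List (W × List W)),
  Rc rk g → g ∉ m →
  (∀ (i : Bool) (s : List W) (τ : List (Lb W × Bool)), Gr (wg g) ((.b i, true) :: cfg s) τ →
    τ = (.b i, true) :: cfg s ∨
    (i = false ∧ ∃ s', s = g.1 :: s' ∧ τ = (.b true, true) :: cfg (g.2 ++ s')) ∨ BI rk m τ) ∧
  (∀ σ τ : List (Lb W × Bool), Red σ → BI rk (g :: m) σ → Gr (wg g) σ τ → BI rk m τ)

/-- BLK (about 120 lines).  One block.

Proof.  The first letter `(b false, true)`: from `cfg s` it is pushed; from `C1o` it is pushed (the top is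
`(b true, false)`, `(z X, true)` or `(z X, false)`): `C1i`; from `C2`: it is pushed or cancels a public letter, `C2`
(if the public part is empty the top is `(y g, true)`).  Induction on the list of rules with hSTP (`Nodup`):
from `(b false, true) :: cfg s` the gadgets lead to `(b false, true) :: cfg s`, to `(b true, true) :: cfg (γ ++ s')`
(`g ∈ l`, `s = g.1 :: s'`), or to `BI []`; from `(b true, true) :: cfg s'` to itself or `BI []`; from `BI l` to `BI []`
(`red_gr`).  The last letter `(b true, false)`: cancels `(b true, true)`; from `(b false, true) :: cfg s` it is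
pushed: `C1o`; from `C1i`: `C1o` (cancelled flag, or first alternative); from `C2`: `C2`; from `C3 []`: it is pushed
(the top is of the third class): `C1o`.  Hypotheses: hSTP. -/
def StBLK : Prop := ∀ (W : Type) (rk : W → Bool) (l : List (W × List W)), (∀ g ∈ l, Rc rk g) →
  l.Nodup →
  (∀ (s : List W) (τ : List (Lb W × Bool)), Gr (blk l) (cfg s) τ →
    (∃ g ∈ l, ∃ s', s = g.1 :: s' ∧ τ = cfg (g.2 ++ s')) ∨ BO rk τ) ∧
  (∀ σ τ : List (Lb W × Bool), Red σ → BO rk σ → Gr (blk l) σ τ → BO rk τ)

/-- RUN (about 60 lines).  Soundness.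

Proof.  From a reduced `BO` stack the word `w.flatMap blk` does not lead to `[]` (induction on `w`, hBLK,
`red_gr`; a `BO` stack is not empty).  Induction on `w` for all `s`: `w = []`: `cfg s = []`, so `s = []`, `Acc.nil`;
`a :: w`: hBLK, `Acc.step`.  Hypotheses: hBLK. -/
def StRUN : Prop := ∀ (α W : Type) (rk : W → Bool) (l : α → List (W × List W)),
  (∀ a, ∀ g ∈ l a, Rc rk g) → (∀ a, (l a).Nodup) → ∀ (w : List α) (s : List W),
    Gr (w.flatMap fun a => blk (l a)) (cfg s) [] → DR.Acc (fun a X γ => (X, γ) ∈ l a) s w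

/-- COM (about 90 lines).  Completeness.

Proof.  Induction on `Acc`.  `step a X γ s w`: `(b false, true)` is pushed on `cfg (X :: s)`; write
`l a = l₁ ++ (X, γ) :: l₂` (`List.append_of_mem`); the gadgets of `l₁` and `l₂` are skipped (hGCO (1); the stacks
have only positive letters, so they are reduced); the gadget of `(X, γ)`: hGCO (2) and
`rd (gG g) ((b false, true) :: cfg (X :: s)) = (b true, true) :: cfg (γ ++ s)` (two cancellations, then positive
letters are pushed on positive letters; prove it directly by unfolding, no `Rc` is needed); `(b true, false)`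
cancels.  Hypotheses: hGCO. -/
def StCOM : Prop := ∀ (α W : Type) (l : α → List (W × List W)) (s : List W) (w : List α),
  DR.Acc (fun a X γ => (X, γ) ∈ l a) s w → Gr (w.flatMap fun a => blk (l a)) (cfg s) []

/-! ## Part 3: assembly -/

/-- SIM (about 60 lines).  The simulation.

Proof.  As `Pool/Agent/Helper51/NM/M_SIM.lean`: lists `l a` without repetitions with `p ∈ l a ↔ Pm a p.1 p.2`.
`u = [((z S, true), false)]`, `h a = blk (l a)`.  `Acc Pm [S] w` iff `Gr (w.flatMap h) (cfg [S]) []` (hRUN, hCOM) iff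
`Gr (u ++ w.flatMap h) [] []` (`gr_mand`) iff `OP` (hGRE).  Hypotheses: hGRE hRUN hCOM. -/
def StSIM : Prop := ∀ (α W : Type) [Finite W] (rk : W → Bool) (Pm : α → W → List W → Prop) (S : W),
  (∀ a X γ, Pm a X γ → γ.length ≤ 8 ∧ ∀ y ∈ γ.getLast?, rk X = true ∧ rk y = false) →
  ∃ (u : List ((Lb W × Bool) × Bool)) (h : α → List ((Lb W × Bool) × Bool)),
    u ≠ [] ∧ (∀ a, h a ≠ []) ∧ ∀ w : List α, DR.Acc Pm [S] w ↔ OP (u ++ w.flatMap h)

/-- CNT (about 30 lines).  The labels are countable.

Proof.  An injective map from `Lb W` to `(Bool ⊕ W) ⊕ ((W × List W) ⊕ (W × List W))`; `Finite W` gives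
`Countable W`, `List W` is countable.  Hypotheses: none. -/
def StCNT : Prop := ∀ (W : Type) [Finite W], Countable (Lb W)

/-- CFL (about 50 lines).  Context-free languages and the path.

Proof.  `hNFM : Pool.Agent.Helper74.DR.StNFM` (hypothesis) gives the machine, hSIM: `u`, `h`; hCNT, hTOP for
`Λ = Lb W`: `k`; `u' = u.flatMap k`, `h' a = (h a).flatMap k` (`List.flatMap_append`, `List.flatMap_assoc`).
See `Pool/Agent/Helper2/NM/M_SYF.lean`.  Hypotheses: hNFM hSIM hCNT hTOP. -/
def StCFL : Prop := ∀ (α : Type) [Finite α] (g : ContextFreeGrammar α),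
  ∃ (u : List (Fin 4)) (h : α → List (Fin 4)), u ≠ [] ∧ (∀ a, h a ≠ []) ∧
    ∀ w : List α, w ≠ [] → (w ∈ g.language ↔ NC (SimpleGraph.pathGraph 4).Adj (u ++ w.flatMap h))

end Pool.Agent.Helper74.WB
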