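import Pool.Agent.Helper74.WB.Fin
import Pool.Agent.Helper74.DR.All
import Pool.Agent.Helper5.NM.M_CFN
import Pool.Agent.Helper14.WB.M_GRA
import Pool.Agent.Helper9.WB.M_GRE
import Pool.Agent.Helper99.WB.M_INS
import Pool.Agent.Helper34.WB.M_DEM
import Pool.Agent.Helper16.WB.M_CAN
import Pool.Agent.Helper99.WB.M_INN
import Pool.Agent.Helper14.WB.M_ENA
import Pool.Agent.Helper97.WB.M_ENS
import Pool.Agent.Helper31.WB.M_ENC
import Pool.Agent.Helper34.WB.M_REL
import Pool.Agent.Helper9.WB.M_PA1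
import Pool.Agent.Helper72.WB.M_TRA
import Pool.Agent.Helper42.WB.M_TRB
import Pool.Agent.Helper62.WB.M_TOP
import Pool.Agent.Helper75.WB.M_IND
import Pool.Agent.Helper31.WB.M_BAS
import Pool.Agent.Helper53.WB.M_PSH
import Pool.Agent.Helper10.WB.M_GWA
import Pool.Agent.Helper31.WB.M_GWB
import Pool.Agent.Helper81.WB.M_GAD
import Pool.Agent.Helper64.WB.M_GCO
import Pool.Agent.Helper29.WB.M_RDP
import Pool.Agent.Helper65.WB.M_RDG
import Pool.Agent.Helper69.WB.M_STP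
import Pool.Agent.Helper95.WB.M_BLK
import Pool.Agent.Helper38.WB.M_RUN
import Pool.Agent.Helper81.WB.M_COM
import Pool.Agent.Helper42.WB.M_SIM
import Pool.Agent.Helper33.WB.M_CNT
import Pool.Agent.Helper58.WB.M_CFL

/-!
# Project WB (MP_26f0da_lc): the theorem without hypotheses
-/

set_option autoImplicit false

namespace Pool.Agent.Helper74.WB

open Pool.Agent.Helper74.NM (NC)

theorem hGRA : StGRA := Pool.Agent.Helper14.WB.hGRA
theorem hGRE : StGRE := Pool.Agent.Helper9.WB.hGRE hGRA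
theorem hINS : StINS := Pool.Agent.Helper99.WB.hINS hGRA hGRE
theorem hDEM : StDEM := Pool.Agent.Helper34.WB.hDEM
theorem hCAN : StCAN := Pool.Agent.Helper16.WB.hCAN hGRE hDEM
theorem hINN : StINN := Pool.Agent.Helper99.WB.hINN
theorem hENA : StENA := Pool.Agent.Helper14.WB.hENA
theorem hENS : StENS := Pool.Agent.Helper97.WB.hENS hINN hCAN
theorem hENC : StENC := Pool.Agent.Helper31.WB.hENC hGRE hINS hENA hENS
theorem hREL : StREL := Pool.Agent.Helper34.WB.hREL
theorem hPA1 : StPA1 := Pool.Agent.Helper9.WB.hPA1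
theorem hTRA : StTRA := Pool.Agent.Helper72.WB.hTRA
theorem hTRB : StTRB := Pool.Agent.Helper42.WB.hTRB
theorem hTOP : StTOP := Pool.Agent.Helper62.WB.hTOP hENC hREL hPA1 hTRA hTRB
theorem hIND : StIND := Pool.Agent.Helper75.WB.hIND
theorem hBAS : StBAS := Pool.Agent.Helper31.WB.hBAS
theorem hPSH : StPSH := Pool.Agent.Helper53.WB.hPSH
theorem hGWA : StGWA := Pool.Agent.Helper10.WB.hGWA hBAS
theorem hGWB : StGWB := Pool.Agent.Helper31.WB.hGWB hBAS hPSH
theorem hGAD : StGAD := Pool.Agent.Helper81.WB.hGAD hGWA hGWB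
theorem hGCO : StGCO := Pool.Agent.Helper64.WB.hGCO
theorem hRDP : StRDP := Pool.Agent.Helper29.WB.hRDP hPSH
theorem hRDG : StRDG := Pool.Agent.Helper65.WB.hRDG hBAS hRDP
theorem hSTP : StSTP := Pool.Agent.Helper69.WB.hSTP hGAD hRDG
theorem hBLK : StBLK := Pool.Agent.Helper95.WB.hBLK hSTP
theorem hRUN : StRUN := Pool.Agent.Helper38.WB.hRUN hBLK
theorem hCOM : StCOM := Pool.Agent.Helper81.WB.hCOM hGCO
theorem hSIM : StSIM := Pool.Agent.Helper42.WB.hSIM hGRE hRUN hCOM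
theorem hCNT : StCNT := Pool.Agent.Helper33.WB.hCNT
theorem hCFL : StCFL := Pool.Agent.Helper58.WB.hCFL DR.hNFM hSIM hCNT hTOP
theorem hCFN : NM.StCFN := Pool.Agent.Helper5.NM.hCFN

theorem main_all (n : ℕ) (Γ : SimpleGraph (Fin n))
    (hP : Nonempty (SimpleGraph.pathGraph 4 ↪g Γ)) :
    (∃ g : ContextFreeGrammar (Fin n), g.language = {w | NC Γ.Adj w}) ∧
      (∀ (α : Type) [Fintype α] (g : ContextFreeGrammar α),
        ∃ (u : List (Fin n)) (h : α → List (Fin n)), (∀ a, h a ≠ []) ∧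
          ∀ w : List α, w ≠ [] → (w ∈ g.language ↔ NC Γ.Adj (u ++ w.flatMap h))) ∧
      ((∀ (α : Type) [Fintype α] (g : ContextFreeGrammar α), DR.InL {w | w ∈ g.language}) ↔
        DR.InL {w | NC Γ.Adj w}) :=
  main hCFL hIND hCFN DR.hAUB DR.hAUE n Γ hP

end Pool.Agent.Helper74.WB
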