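import Pool.Agent.Helper74.NM.Base
import Pool.Agent.Helper74.DR.Defs

/-!
# Project WB (MP_26f0da_lc): definitions and simple facts

THEOREM.  Let `Γ` be a finite graph with an induced path on four vertices (for example the path
itself: RNA letters with the pairs AU, GC, GU).  The words over the vertices which have a noncrossing
perfect matching of adjacent letters form a hardest context-free language.

Signed labels `x : Λ × Bool` (`x.2 = true`: positive).  Letters `(x, o)`: `o = true`: the letter is
optional (it may be deleted).  `OP w`: some deletion of optional letters of `w` gives a word which is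
trivial in the free group on `Λ`.
-/

set_option autoImplicit false

namespace Pool.Agent.Helper74.WB

/-- The inverse of a signed label. -/
def iv {Λ : Type} (x : Λ × Bool) : Λ × Bool := (x.1, !x.2)

/-- A noncrossing matching of inverse letters which covers all letters which are not optional. -/
inductive OP {Λ : Type} : List ((Λ × Bool) × Bool) → Prop
  | nil : OP []
  | skip (x : Λ × Bool) (w : List ((Λ × Bool) × Bool)) : OP w → OP ((x, true) :: w)
  | wrap (x : Λ × Bool) (o o' : Bool) (u v : List ((Λ × Bool) × Bool)) :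
      OP u → OP v → OP ((x, o) :: (u ++ (iv x, o') :: v))

section

variable {Λ : Type}

theorem iv_iv (x : Λ × Bool) : iv (iv x) = x := by
  rcases x with ⟨i, s⟩
  simp [iv]

theorem iv_ne (x : Λ × Bool) : iv x ≠ x := by
  rcases x with ⟨i, s⟩
  cases s <;> simp [iv]

theorem iv_eq_iff (x y : Λ × Bool) : iv x = y ↔ x = iv y := by
  constructor
  · rintro rfl
    exact (iv_iv x).symm
  · rintro rfl
    exact iv_iv y

open Classical in
/-- Free reduction on a stack (top first): the letter `x` arrives. -/
noncomputable def ap (x : Λ × Bool) : List (Λ × Bool) → List (Λ × Bool)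
  | [] => [x]
  | y :: σ => if y = iv x then σ else x :: y :: σ

/-- The word `l` is read (its first letter first). -/
noncomputable def rd (l : List (Λ × Bool)) (σ : List (Λ × Bool)) : List (Λ × Bool) :=
  l.foldl (fun ρ x => ap x ρ) σ

/-- The word with optional letters is read: an optional letter may be skipped. -/
def Gr : List ((Λ × Bool) × Bool) → List (Λ × Bool) → List (Λ × Bool) → Prop
  | [], σ, τ => σ = τ
  | (x, o) :: w, σ, τ => Gr w (ap x σ) τ ∨ (o = true ∧ Gr w σ τ)

/-- Reduced stacks. -/
def Red : List (Λ × Bool) → Prop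
  | [] => True
  | [_] => True
  | x :: y :: σ => y ≠ iv x ∧ Red (y :: σ)

/-- The inverse word. -/
def inv (l : List (Λ × Bool)) : List (Λ × Bool) := (l.map iv).reverse

theorem ap_nil (x : Λ × Bool) : ap x [] = [x] := rfl

theorem ap_cancel (x : Λ × Bool) (σ : List (Λ × Bool)) : ap x (iv x :: σ) = σ := by
  simp [ap]

theorem ap_cancel' (x : Λ × Bool) (σ : List (Λ × Bool)) : ap (iv x) (x :: σ) = σ := by
  simp [ap, iv_iv]

theorem ap_push (x y : Λ × Bool) (σ : List (Λ × Bool)) (h : y ≠ iv x) :
    ap x (y :: σ) = x :: y :: σ := by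
  simp [ap, h]

/-- The letter `x` is pushed if the top is not its inverse. -/
theorem ap_push' (x : Λ × Bool) (σ : List (Λ × Bool)) (h : ∀ y ∈ σ.head?, y ≠ iv x) :
    ap x σ = x :: σ := by
  cases σ with
  | nil => rfl
  | cons y σ => exact ap_push x y σ (h y (by simp))

theorem red_nil : Red ([] : List (Λ × Bool)) := trivial

theorem red_tail (x : Λ × Bool) (σ : List (Λ × Bool)) (h : Red (x :: σ)) : Red σ := by
  cases σ with
  | nil => trivial
  | cons y σ => exact h.2

theorem red_cons (x : Λ × Bool) (σ : List (Λ × Bool)) (h : Red σ)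
    (h' : ∀ y ∈ σ.head?, y ≠ iv x) : Red (x :: σ) := by
  cases σ with
  | nil => trivial
  | cons y σ => exact ⟨h' y (by simp), h⟩

theorem red_append_right (σ τ : List (Λ × Bool)) (h : Red (σ ++ τ)) : Red τ := by
  induction σ with
  | nil => exact h
  | cons x σ ih => exact ih (red_tail _ _ h)

theorem red_ap (x : Λ × Bool) (σ : List (Λ × Bool)) (h : Red σ) : Red (ap x σ) := by
  cases σ with
  | nil => trivial
  | cons y σ =>
    by_cases e : y = iv x
    · subst e
      rw [ap_cancel]
      exact red_tail _ _ h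
    · rw [ap_push x y σ e]
      exact ⟨e, h⟩

theorem ap_iv_ap (x : Λ × Bool) (σ : List (Λ × Bool)) (h : Red σ) : ap (iv x) (ap x σ) = σ := by
  cases σ with
  | nil => exact ap_cancel' x []
  | cons y σ =>
    by_cases e : y = iv x
    · subst e
      rw [ap_cancel]
      refine ap_push' _ _ ?_
      intro z hz
      cases σ with
      | nil => simp at hz
      | cons w σ =>
        simp only [List.head?_cons, Option.mem_def, Option.some.injEq] at hz
        subst hz
        exact h.1
    · rw [ap_push x y σ e, ap_cancel']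

theorem ap_ap_iv (x : Λ × Bool) (σ : List (Λ × Bool)) (h : Red σ) : ap x (ap (iv x) σ) = σ := by
  have := ap_iv_ap (iv x) σ h
  rwa [iv_iv] at this

theorem rd_nil (σ : List (Λ × Bool)) : rd [] σ = σ := rfl

theorem rd_cons (x : Λ × Bool) (l σ : List (Λ × Bool)) : rd (x :: l) σ = rd l (ap x σ) := rfl

theorem rd_append (l l' σ : List (Λ × Bool)) : rd (l ++ l') σ = rd l' (rd l σ) := by
  simp [rd, List.foldl_append]

theorem red_rd (l σ : List (Λ × Bool)) (h : Red σ) : Red (rd l σ) := by
  induction l generalizing σ with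
  | nil => exact h
  | cons x l ih => exact ih _ (red_ap x σ h)

theorem inv_cons (x : Λ × Bool) (l : List (Λ × Bool)) : inv (x :: l) = inv l ++ [iv x] := by
  simp [inv]

theorem inv_inv (l : List (Λ × Bool)) : inv (inv l) = l := by
  simp only [inv, List.map_reverse, List.reverse_reverse, List.map_map]
  have : (iv ∘ iv : Λ × Bool → Λ × Bool) = id := by
    funext x
    exact iv_iv x
  rw [this, List.map_id]

theorem rd_rd_inv (l σ : List (Λ × Bool)) (h : Red σ) : rd (inv l) (rd l σ) = σ := by
  induction l generalizing σ with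
  | nil => rfl
  | cons x l ih =>
    rw [rd_cons, inv_cons, rd_append, ih _ (red_ap x σ h)]
    exact ap_iv_ap x σ h

theorem rd_inv_rd (l σ : List (Λ × Bool)) (h : Red σ) : rd l (rd (inv l) σ) = σ := by
  have := rd_rd_inv (inv l) σ h
  rwa [inv_inv] at this

theorem gr_nil (σ τ : List (Λ × Bool)) : Gr [] σ τ ↔ σ = τ := Iff.rfl

theorem gr_cons (x : Λ × Bool) (o : Bool) (w : List ((Λ × Bool) × Bool))
    (σ τ : List (Λ × Bool)) :
    Gr ((x, o) :: w) σ τ ↔ Gr w (ap x σ) τ ∨ (o = true ∧ Gr w σ τ) := Iff.rfl

theorem gr_mand (x : Λ × Bool) (w : List ((Λ × Bool) × Bool)) (σ τ : List (Λ × Bool)) :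
    Gr ((x, false) :: w) σ τ ↔ Gr w (ap x σ) τ := by
  simp [gr_cons]

theorem gr_opt (x : Λ × Bool) (w : List ((Λ × Bool) × Bool)) (σ τ : List (Λ × Bool)) :
    Gr ((x, true) :: w) σ τ ↔ Gr w (ap x σ) τ ∨ Gr w σ τ := by
  simp [gr_cons]

theorem gr_append (w₁ w₂ : List ((Λ × Bool) × Bool)) (σ τ : List (Λ × Bool)) :
    Gr (w₁ ++ w₂) σ τ ↔ ∃ ρ, Gr w₁ σ ρ ∧ Gr w₂ ρ τ := by
  induction w₁ generalizing σ with
  | nil => simp [gr_nil]
  | cons a w ih =>
    rcases a with ⟨x, o⟩
    rw [List.cons_append, gr_cons, ih, ih]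
    constructor
    · rintro (⟨ρ, h1, h2⟩ | ⟨h, ρ, h1, h2⟩)
      · exact ⟨ρ, Or.inl h1, h2⟩
      · exact ⟨ρ, Or.inr ⟨h, h1⟩, h2⟩
    · rintro ⟨ρ, h1 | ⟨h, h1⟩, h2⟩
      · exact Or.inl ⟨ρ, h1, h2⟩
      · exact Or.inr ⟨h, ρ, h1, h2⟩

/-- Mandatory letters. -/
theorem gr_mands (l : List (Λ × Bool)) (w : List ((Λ × Bool) × Bool)) (σ τ : List (Λ × Bool)) :
    Gr (l.map (fun x => (x, false)) ++ w) σ τ ↔ Gr w (rd l σ) τ := by
  induction l generalizing σ with
  | nil => rfl
  | cons x l ih => rw [List.map_cons, List.cons_append, gr_mand, ih, rd_cons]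

theorem red_gr (w : List ((Λ × Bool) × Bool)) (σ τ : List (Λ × Bool)) (h : Red σ)
    (h' : Gr w σ τ) : Red τ := by
  induction w generalizing σ with
  | nil =>
    have : σ = τ := h'
    rwa [← this]
  | cons a w ih =>
    rcases a with ⟨x, o⟩
    rcases h' with h' | ⟨_, h'⟩
    · exact ih _ (red_ap x σ h) h'
    · exact ih _ h h'

theorem op_append (u v : List ((Λ × Bool) × Bool)) (hu : OP u) (hv : OP v) : OP (u ++ v) := by
  induction hu with
  | nil => exact hv
  | skip x w _ ih => exact OP.skip x _ ih
  | wrap x o o' p q hp _ _ ihq =>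
    have e : (x, o) :: (p ++ (iv x, o') :: q) ++ v = (x, o) :: (p ++ (iv x, o') :: (q ++ v)) := by
      simp
    rw [e]
    exact OP.wrap x o o' p (q ++ v) hp ihq

/-- All letters of `w` are optional. -/
theorem op_optional (w : List ((Λ × Bool) × Bool)) (h : ∀ a ∈ w, a.2 = true) : OP w := by
  induction w with
  | nil => exact OP.nil
  | cons a w ih =>
    rcases a with ⟨x, o⟩
    have : o = true := h (x, o) (by simp)
    subst this
    exact OP.skip x w (ih fun a ha => h a (by simp [ha]))

/-- All optional letters are taken. -/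
theorem gr_takes (l : List (Λ × Bool)) (w : List ((Λ × Bool) × Bool)) (σ τ : List (Λ × Bool))
    (h : Gr w (rd l σ) τ) : Gr (l.map (fun x => (x, true)) ++ w) σ τ := by
  induction l generalizing σ with
  | nil => exact h
  | cons x l ih =>
    rw [List.map_cons, List.cons_append, gr_opt]
    exact Or.inl (ih _ h)

/-- All optional letters are skipped. -/
theorem gr_skips (w w' : List ((Λ × Bool) × Bool)) (σ τ : List (Λ × Bool))
    (hw : ∀ a ∈ w, a.2 = true) (h : Gr w' σ τ) : Gr (w ++ w') σ τ := by
  induction w with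
  | nil => exact h
  | cons a w ih =>
    rcases a with ⟨x, o⟩
    have : o = true := hw (x, o) (by simp)
    subst this
    rw [List.cons_append, gr_opt]
    exact Or.inr (ih fun a ha => hw a (by simp [ha]))

/-! ### Coding of mandatory letters by quasipositive words -/

/-- The letter `(x, o)` becomes an optional positive letter (a supply) with the label `x`, and, if it
is not optional, a negative letter (a demand) with the label `iv x`. -/
def enc (a : (Λ × Bool) × Bool) : List (((Λ × Bool) × Bool) × Bool) :=
  ((a.1, true), true) :: (if a.2 then [] else [((iv a.1, false), false)])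

/-- Words of optional positive letters and mandatory negative letters. -/
def QW (w : List ((Λ × Bool) × Bool)) : Prop := ∀ a ∈ w, a.2 = a.1.2

/-- A new label for every letter. -/
def rl {Λ' : Type} (e : Λ → Λ') (a : (Λ × Bool) × Bool) : (Λ' × Bool) × Bool :=
  ((e a.1.1, a.1.2), a.2)

end

/-! ### The letters of the path -/

/-- The vertices of the path are `0`, `1`, `2`, `3`.  A supply with the label `i` becomes
`0^i 1 2 1^i`, a demand becomes `0^i 3 0 1^i`. -/
def pw (a : (ℕ × Bool) × Bool) : List (Fin 4) :=
  List.replicate a.1.1 0 ++ ((if a.1.2 then [1, 2] else [3, 0]) ++ List.replicate a.1.1 1)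

/-- The step of a vertex: `0` and `2` go up, `1` and `3` go down. -/
def stp4 (x : Fin 4) : ℤ := if x = 0 ∨ x = 2 then 1 else -1

/-- The height of a word. -/
def ht (w : List (Fin 4)) : ℤ := (w.map stp4).sum

/-- Reading a word over the path from the height `η`: the vertex `2` gives a supply whose label is the
height after the step, the vertex `3` gives a demand whose label is the height before the step. -/
def tr : ℤ → List (Fin 4) → List ((ℤ × Bool) × Bool)
  | _, [] => []
  | η, x :: w => (if x = 2 then [((η + 1, true), true)] else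
      if x = 3 then [((η, false), false)] else []) ++ tr (η + stp4 x) w

/-! ### The simulation -/

/-- The labels: flags, stack symbols, and two labels for every rule. -/
inductive Lb (W : Type) : Type
  | b (i : Bool) : Lb W
  | z (X : W) : Lb W
  | t (g : W × List W) : Lb W
  | y (g : W × List W) : Lb W

section

variable {W : Type}

/-- Public signed labels. -/
def Pb (x : Lb W × Bool) : Prop := (∃ i, x.1 = .b i) ∨ ∃ X, x.1 = .z X

/-- The machine stack. -/
def cfg (s : List W) : List (Lb W × Bool) := s.map fun X => (.z X, true)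

/-- The effect of the rule `g`. -/
def gG (g : W × List W) : List (Lb W × Bool) :=
  (.b false, false) :: (.z g.1, false) :: (g.2.reverse.map (fun X => (.z X, true)) ++
    [(.b true, true)])

/-- The effect of the rule `g`, followed by the negative letter `t g`. -/
def gt (g : W × List W) : List (Lb W × Bool) := gG g ++ [(.t g, false)]

/-- First part of the gadget: `y`, the optional letters of `gt g`, `y⁻¹`, optional `y`. -/
def w1 (g : W × List W) : List ((Lb W × Bool) × Bool) :=
  ((.y g, true), false) :: ((gt g).map (fun x => (x, true)) ++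
    [((.y g, false), false), ((.y g, true), true)])

/-- Second part of the gadget: the inverse of `gt g`, optional `y⁻¹`, `gt g`. -/
def w2 (g : W × List W) : List ((Lb W × Bool) × Bool) :=
  (inv (gt g)).map (fun x => (x, false)) ++ (((.y g, false), true) ::
    (gt g).map (fun x => (x, false)))

/-- The gadget of the rule `g`. -/
def wg (g : W × List W) : List ((Lb W × Bool) × Bool) := w1 g ++ (w2 g ++ [((.t g, true), true)])

/-- The block of the list `l` of rules. -/
def blk (l : List (W × List W)) : List ((Lb W × Bool) × Bool) :=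
  ((.b false, true), false) :: (l.flatMap wg ++ [((.b true, false), false)])

/-- The condition on the rules. -/
def Rc (rk : W → Bool) (g : W × List W) : Prop :=
  ∀ z ∈ g.2.getLast?, rk g.1 = true ∧ rk z = false

/-- The stack is fresh for the rule `g`. -/
def Fr (g : W × List W) (σ : List (Lb W × Bool)) : Prop :=
  ∀ x ∈ σ.head?, x ≠ (.y g, false) ∧ x ≠ (.t g, false)

/-- First class of bad stacks, between the blocks. -/
def C1o (rk : W → Bool) (σ : List (Lb W × Bool)) : Prop :=
  (∃ τ, σ = (.b true, false) :: τ) ∨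
    ∃ (s : List W) (X : W) (τ : List (Lb W × Bool)), σ = cfg s ++ (.z X, false) :: τ ∧
      ∀ z ∈ s.getLast?, rk X = true ∧ rk z = false

/-- First class of bad stacks, inside the blocks. -/
def C1i (rk : W → Bool) (σ : List (Lb W × Bool)) : Prop :=
  ∃ (i : Bool) (τ : List (Lb W × Bool)), σ = (.b i, true) :: τ ∧ C1o rk τ

/-- Second class of bad stacks. -/
def C2 (σ : List (Lb W × Bool)) : Prop :=
  ∃ (ρ : List (Lb W × Bool)) (g : W × List W) (τ : List (Lb W × Bool)),
    σ = ρ ++ (.y g, true) :: τ ∧ ∀ x ∈ ρ, Pb x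

/-- Third class of bad stacks, inside the blocks, before the gadgets of the rules in `m`. -/
def C3 (m : List (W × List W)) (σ : List (Lb W × Bool)) : Prop :=
  ∃ (g : W × List W) (x : Lb W × Bool) (τ : List (Lb W × Bool)), σ = x :: τ ∧ g ∉ m ∧
    (x = (.y g, false) ∨ x.1 = .t g)

/-- Bad stacks inside the blocks, before the gadgets of the rules in `m`. -/
def BI (rk : W → Bool) (m : List (W × List W)) (σ : List (Lb W × Bool)) : Prop :=
  C1i rk σ ∨ C2 σ ∨ C3 m σ

/-- Bad stacks between the blocks. -/
def BO (rk : W → Bool) (σ : List (Lb W × Bool)) : Prop := C1o rk σ ∨ C2 σ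

/-- The stacks which can arise in the word `w1 g` from the stack `σ`. -/
def Mid (g : W × List W) (σ τ : List (Lb W × Bool)) : Prop :=
  τ = σ ∨ (∃ τ', τ = (.y g, false) :: τ') ∨
    ∃ (δ : List (Lb W × Bool)), τ = δ ++ (.y g, true) :: σ ∧
      ((∀ x ∈ δ, Pb x) ∨ ∃ δ₀ : List (Lb W × Bool), δ = (.t g, false) :: δ₀ ∧ ∀ x ∈ δ₀, Pb x)

/-- The possible results of the gadget of `g` from the stack `σ`. -/
def Out (g : W × List W) (σ τ : List (Lb W × Bool)) : Prop :=
  τ = σ ∨ τ = rd (gG g) σ ∨ τ = rd (gt g) σ ∨
    (∃ (x : Lb W × Bool) (τ' : List (Lb W × Bool)), τ = x :: τ' ∧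
      (x = (.y g, false) ∨ x.1 = .t g)) ∨
    (∃ (ρ τ' : List (Lb W × Bool)), τ = ρ ++ (.y g, true) :: τ' ∧ ∀ x ∈ ρ, Pb x) ∨
    ∃ τ', τ = (.b true, true) :: (cfg g.2 ++ (.z g.1, false) :: τ')

end

end Pool.Agent.Helper74.WB
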