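import Pool.Agent.Helper74.WB.St
import Pool.Agent.Helper74.NM.St
import Pool.Agent.Helper74.DR.Fin

/-!
# Project WB (MP_26f0da_lc): the final assembly
-/

set_option autoImplicit false

namespace Pool.Agent.Helper74.WB

open Pool.Agent.Helper74.NM (NC)

theorem main (hCFL : StCFL) (hIND : StIND) (hCFN : NM.StCFN) (hAUB : DR.StAUB)
    (hAUE : DR.StAUE) (n : ℕ) (Γ : SimpleGraph (Fin n))
    (hP : Nonempty (SimpleGraph.pathGraph 4 ↪g Γ)) :
    (∃ g : ContextFreeGrammar (Fin n), g.language = {w | NC Γ.Adj w}) ∧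
      (∀ (α : Type) [Fintype α] (g : ContextFreeGrammar α),
        ∃ (u : List (Fin n)) (h : α → List (Fin n)), (∀ a, h a ≠ []) ∧
          ∀ w : List α, w ≠ [] → (w ∈ g.language ↔ NC Γ.Adj (u ++ w.flatMap h))) ∧
      ((∀ (α : Type) [Fintype α] (g : ContextFreeGrammar α), DR.InL {w | w ∈ g.language}) ↔
        DR.InL {w | NC Γ.Adj w}) := by
  obtain ⟨e⟩ := hP
  obtain ⟨g₁, hg₁⟩ := hCFN n Γ.Adj
  have red : ∀ (α : Type) [Fintype α] (g : ContextFreeGrammar α),
      ∃ (u : List (Fin n)) (h : α → List (Fin n)), u ≠ [] ∧ (∀ a, h a ≠ []) ∧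
        ∀ w : List α, w ≠ [] → (w ∈ g.language ↔ NC Γ.Adj (u ++ w.flatMap h)) := by
    intro α _ g
    obtain ⟨u, h, hu, hh, hw⟩ := hCFL α g
    refine ⟨u.map e, fun a => (h a).map e, ?_, ?_, ?_⟩
    · intro h0
      exact hu (List.map_eq_nil_iff.1 h0)
    · intro a h0
      exact hh a (List.map_eq_nil_iff.1 h0)
    · intro w hne
      rw [hw w hne, hIND n Γ e, List.map_append, List.map_flatMap]
  refine ⟨⟨g₁, Set.ext hg₁⟩, ?_, ?_, ?_⟩
  · intro α _ g
    obtain ⟨u, h, _, hh, hw⟩ := red α g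
    exact ⟨u, h, hh, hw⟩
  · intro hQ
    have := hQ (Fin n) g₁
    have e' : {w | w ∈ g₁.language} = {w | NC Γ.Adj w} := Set.ext hg₁
    rwa [e'] at this
  · intro hL α _ g
    obtain ⟨u, h, hu, hh, hw⟩ := red α g
    have h1 := hAUB α _ {w | NC Γ.Adj w} u [] h hu hh hL
    refine hAUE α _ _ (fun w hne => ?_) h1
    simp only [Set.mem_ofPred_eq, List.append_nil]
    exact (hw w hne).symm

end Pool.Agent.Helper74.WB
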